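import Pool.Agent.helper24.TG.S4

set_option linter.all false
set_option autoImplicit false

/-!
# Q3f: union over the copies for the third fine property (MP_ce98d8_co)
-/

namespace Pool.Agent.helper24.TG

open Finset Classical
open Pool.Agent.helper11.Tight (nb eo mem_nb)

/-- the degree of `T` is at most the number of its vertices -/
theorem Q3f_d_le (p : Par) {V : Type} [Fintype V] [DecidableEq V] {T : SimpleGraph V}
    {MM : Finset (Finset V)} (hT : TSp p T MM) : p.d ≤ p.N := by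
  have hc := hT.card_V
  have hN := p.hN
  have : 0 < Fintype.card V := by omega
  obtain ⟨v⟩ := Fintype.card_pos_iff.mp this
  rw [← hT.reg v, ← hc]
  exact Finset.card_le_univ _

/-- `(c B)^100 ≤ q` -/
theorem Q3f_cB_le (p : Par) (hd : p.d ≤ p.N) : (p.c * p.B) ^ 100 ≤ p.q := by
  have h := p.N2
  have hL := p.hL
  have hN := p.hN
  have h1 : (p.c * p.B) ^ 100 * p.N ≤ (p.c * p.B) ^ 100 * p.L * (p.K + 1) * p.N := by
    refine Nat.mul_le_mul_right _ ?_
    have : 1 ≤ p.L * (p.K + 1) := Nat.succ_le_of_lt (by positivity)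
    calc (p.c * p.B) ^ 100 = (p.c * p.B) ^ 100 * 1 := (mul_one _).symm
      _ ≤ (p.c * p.B) ^ 100 * (p.L * (p.K + 1)) := Nat.mul_le_mul_left _ this
      _ = _ := by ring
  have h2 : (p.c * p.B) ^ 100 * p.N ≤ p.q * p.N :=
    (h1.trans h).trans (Nat.mul_le_mul_left _ hd)
  exact Nat.le_of_mul_le_mul_right h2 (by omega)

theorem Q3f_c_pos (p : Par) : 10 ^ 6 ≤ p.c := by
  have h1 := p.hLog
  have h2 := p.hLam
  calc 10 ^ 6 = 10 ^ 6 * 1 := by norm_num
    _ ≤ 10 ^ 6 * p.Lam := Nat.mul_le_mul_left _ h2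
    _ ≤ p.c := h1

theorem Q3f_B_pos (p : Par) : 1 ≤ p.B := by
  obtain ⟨b, hb⟩ := p.hBp
  rw [hb]
  exact Nat.one_le_two_pow

theorem Q3f_C_pos (p : Par) (hq : 1 ≤ p.q) : 1 ≤ p.C := by
  have h1 := p.hC1
  have hc := Q3f_c_pos p
  have hd := p.hd
  by_contra h
  have h0 : p.C = 0 := by omega
  rw [h0] at h1
  have : 0 < p.c ^ 3 * p.q * p.d := by
    have : 0 < p.c := by omega
    have : 0 < p.d := by omega
    positivity
  omega

/-- the numerical inequality -/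
theorem Q3f_num (c Lam B q : ℕ) (h1 : 10 ^ 6 * Lam ≤ c) (h2 : 1 ≤ Lam) (hB : 1 ≤ B)
    (hq : (c * B) ^ 100 ≤ q) :
    Lam * (c ^ 6 * q) + 4 * Lam + Lam * (c ^ 12 * B + 1) ≤ q / (c ^ 4 * B) * (c ^ 12 * B + 1) := by
  set k := q / (c ^ 4 * B) with hk
  have hc : 10 ^ 6 ≤ c := by nlinarith
  have hc0 : 0 < c := by omega
  have hB0 : 0 < B := hB
  have hcB : 1 ≤ c * B := Nat.succ_le_of_lt (by positivity)
  have hq14 : c ^ 13 * B ≤ q := by
    calc c ^ 13 * B ≤ c ^ 13 * B ^ 13 := Nat.mul_le_mul_left _ (Nat.le_self_pow (by norm_num) _)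
      _ = (c * B) ^ 13 := by rw [mul_pow]
      _ ≤ (c * B) ^ 100 := Nat.pow_le_pow_right hcB (by norm_num)
      _ ≤ q := hq
  have hD : 0 < c ^ 4 * B := by positivity
  -- 2 * (c^4 B) ≤ q
  have h2D : 2 * (c ^ 4 * B) ≤ q := by
    refine le_trans ?_ hq14
    have : 2 * c ^ 4 ≤ c ^ 13 := by
      calc 2 * c ^ 4 ≤ c * c ^ 4 := Nat.mul_le_mul_right _ (by omega)
        _ = c ^ 5 := by ring
        _ ≤ c ^ 13 := Nat.pow_le_pow_right hc0 (by norm_num)
    calc 2 * (c ^ 4 * B) = (2 * c ^ 4) * B := by ring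
      _ ≤ c ^ 13 * B := Nat.mul_le_mul_right _ this
  -- q ≤ 2 * (c^4 B) * k
  have hk2 : q ≤ 2 * (c ^ 4 * B * k) := by
    have e1 : q < c ^ 4 * B * k + c ^ 4 * B := by
      have := Nat.lt_mul_div_succ q hD
      rw [← hk] at this
      calc q < c ^ 4 * B * (k + 1) := this
        _ = _ := by ring
    have e2 : c ^ 4 * B ≤ c ^ 4 * B * k := by
      have : 1 ≤ k := by
        rw [hk]
        refine (Nat.one_le_div_iff hD).mpr ?_
        omega
      calc c ^ 4 * B = c ^ 4 * B * 1 := (mul_one _).symm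
        _ ≤ _ := Nat.mul_le_mul_left _ this
    omega
  -- c^8 q ≤ 2 * k * (c^12 B)
  have h3 : c ^ 8 * q ≤ 2 * (k * (c ^ 12 * B)) := by
    calc c ^ 8 * q ≤ c ^ 8 * (2 * (c ^ 4 * B * k)) := Nat.mul_le_mul_left _ hk2
      _ = _ := by ring
  have h4 : k * (c ^ 12 * B) ≤ k * (c ^ 12 * B + 1) := Nat.mul_le_mul_left _ (by omega)
  -- left side
  have g1 : Lam * (c ^ 6 * q) ≤ c ^ 7 * q := by
    calc Lam * (c ^ 6 * q) ≤ c * (c ^ 6 * q) := Nat.mul_le_mul_right _ (by omega)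
      _ = _ := by ring
  have g2 : 4 * Lam ≤ c ^ 7 * q := by
    have a1 : 4 * Lam ≤ c := by omega
    have a2 : c ≤ c ^ 7 := Nat.le_self_pow (by norm_num) _
    have a3 : 1 ≤ q := by
      have : 0 < c ^ 13 * B := by positivity
      omega
    calc 4 * Lam ≤ c ^ 7 * 1 := by omega
      _ ≤ _ := Nat.mul_le_mul_left _ a3
  have g3 : Lam * (c ^ 12 * B + 1) ≤ c ^ 7 * q := by
    have a1 : c ^ 12 * B + 1 ≤ 2 * (c ^ 12 * B) := by
      have : 0 < c ^ 12 * B := by positivity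
      omega
    calc Lam * (c ^ 12 * B + 1) ≤ Lam * (2 * (c ^ 12 * B)) := Nat.mul_le_mul_left _ a1
      _ = (2 * Lam) * (c ^ 12 * B) := by ring
      _ ≤ c * (c ^ 12 * B) := Nat.mul_le_mul_right _ (by omega)
      _ = c ^ 13 * B := by ring
      _ ≤ 1 * q := by omega
      _ ≤ c ^ 7 * q := Nat.mul_le_mul_right _ (Nat.succ_le_of_lt (by positivity))
  have g4 : 6 * (c ^ 7 * q) ≤ c ^ 8 * q := by
    calc 6 * (c ^ 7 * q) ≤ c * (c ^ 7 * q) := Nat.mul_le_mul_right _ (by omega)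
      _ = _ := by ring
  omega

theorem Q3f (hQB3 : QB3_stmt) : Q3f_stmt := by
  intro p P O A V _ _ _ _ _ _ _ _ _ H v T MM v0 hA hT h2 h3
  have hdN := Q3f_d_le p hT
  have hcq := Q3f_cB_le p hdN
  have hc := Q3f_c_pos p
  have hB := Q3f_B_pos p
  have hc0 : 0 < p.c := by omega
  have hB0 : 0 < p.B := by omega
  have hq : 1 ≤ p.q := by
    have : 0 < (p.c * p.B) ^ 100 := by positivity
    omega
  have hC := Q3f_C_pos p hq
  set Om := Fintype.piFinset (fun _ : Fin p.C => Psi p H v0) with hOm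
  have hcard : Om.card = (Psi p H v0).card ^ p.C := by
    rw [hOm, Fintype.card_piFinset]
    simp
  set I : Finset (Finset (P × A)) :=
    Finset.univ.filter (fun E0 => E0 ⊆ XA A H ∧ E0.card ≤ p.c ^ 6 * p.q) with hI
  have hIcard : I.card ≤ 2 ^ (p.Lam * (p.c ^ 6 * p.q)) := by
    have e1 : I.card ≤ ((Finset.univ : Finset (Finset (P × A))).filter
        (fun S => S.card ≤ p.c ^ 6 * p.q)).card := by
      refine Finset.card_le_card ?_
      intro E0 hE0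
      rw [hI, Finset.mem_filter] at hE0
      rw [Finset.mem_filter]
      exact ⟨Finset.mem_univ _, hE0.2.2⟩
    have e2 := card_small_sets (P × A) (p.c ^ 6 * p.q)
    have e3 : Fintype.card (P × A) + 1 ≤ 2 ^ p.Lam := by
      rw [Fintype.card_prod, H.card_P, hA]
      refine le_trans ?_ p.s1
      have a1 : p.q ^ 2 + p.q + 2 ≤ 4 * p.q ^ 2 := by nlinarith
      calc (p.q ^ 2 + p.q + 1) * p.B + 1 ≤ (p.q ^ 2 + p.q + 1) * p.B + p.B := by omega
        _ = (p.q ^ 2 + p.q + 2) * p.B := by ring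
        _ ≤ (4 * p.q ^ 2) * p.B := Nat.mul_le_mul_right _ a1
        _ = 4 * p.B * p.q ^ 2 * 1 := by ring
        _ ≤ 4 * p.B * p.q ^ 2 * p.C := Nat.mul_le_mul_left _ hC
    calc I.card ≤ (Fintype.card (P × A) + 1) ^ (p.c ^ 6 * p.q) := e1.trans e2
      _ ≤ (2 ^ p.Lam) ^ (p.c ^ 6 * p.q) := Nat.pow_le_pow_left e3 _
      _ = _ := by rw [← pow_mul]
  have hClam : p.C ≤ 2 ^ p.Lam := by
    refine le_trans ?_ p.s1
    have : 0 < 4 * p.B * p.q ^ 2 := by positivity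
    calc p.C = 1 * p.C := (one_mul _).symm
      _ ≤ _ := Nat.mul_le_mul_right _ this
  have hnum := Q3f_num p.c p.Lam p.B p.q p.hLog p.hLam hB hcq
  have key := ub Om I (fun E0 φ => p.c ^ 12 * p.B + 1 ≤
    ((Finset.univ : Finset (Fin p.C)).filter (fun j => ¬ GoodC p H v T (φ j) E0)).card)
    (p.Lam * (p.c ^ 6 * p.q)) (4 * p.Lam) hIcard ?_
  · rw [hcard] at key
    refine le_trans (Nat.mul_le_mul_right _ (Finset.card_le_card ?_)) key
    intro φ hφ
    rw [Finset.mem_filter] at hφ ⊢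
    refine ⟨hφ.1, ?_⟩
    by_contra hcon
    apply hφ.2
    intro E0 hE hEc
    by_contra hlt
    apply hcon
    refine ⟨E0, ?_, ?_⟩
    · rw [hI, Finset.mem_filter]
      exact ⟨Finset.mem_univ _, hE, hEc⟩
    · exact Nat.succ_le_of_lt (not_le.mp hlt)
  · intro E0 hE0
    rw [hI, Finset.mem_filter] at hE0
    have h := hQB3 p P O A V H v T MM v0 hA hT h2 h3 E0 hE0.2.1 hE0.2.2
      (p.q / (p.c ^ 4 * p.B)) (Nat.mul_div_le _ _)
    have hp := prod_bad (Psi p H v0) p.C (p.c ^ 12 * p.B + 1) (2 ^ (p.q / (p.c ^ 4 * p.B)))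
      (fun _ φ => ¬ GoodC p H v T φ E0) (fun _ => by convert h)
    have hch : p.C.choose (p.c ^ 12 * p.B + 1) ≤ 2 ^ (p.Lam * (p.c ^ 12 * p.B + 1)) := by
      calc p.C.choose (p.c ^ 12 * p.B + 1) ≤ p.C ^ (p.c ^ 12 * p.B + 1) := Nat.choose_le_pow _ _
        _ ≤ (2 ^ p.Lam) ^ (p.c ^ 12 * p.B + 1) := Nat.pow_le_pow_left hClam _
        _ = _ := by rw [← pow_mul]
    rw [← hOm] at hp
    rw [hcard]
    set X := (Om.filter (fun φ => p.c ^ 12 * p.B + 1 ≤
      ((Finset.univ : Finset (Fin p.C)).filter (fun j => ¬ GoodC p H v T (φ j) E0)).card)).card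
      with hX
    have hpos : 0 < 2 ^ (p.Lam * (p.c ^ 12 * p.B + 1)) := by positivity
    refine Nat.le_of_mul_le_mul_left ?_ hpos
    calc 2 ^ (p.Lam * (p.c ^ 12 * p.B + 1)) *
          (X * 2 ^ (p.Lam * (p.c ^ 6 * p.q) + 4 * p.Lam))
        = X * 2 ^ (p.Lam * (p.c ^ 6 * p.q) + 4 * p.Lam + p.Lam * (p.c ^ 12 * p.B + 1)) := by
          rw [pow_add 2 (p.Lam * (p.c ^ 6 * p.q) + 4 * p.Lam)]; ring
      _ ≤ X * 2 ^ (p.q / (p.c ^ 4 * p.B) * (p.c ^ 12 * p.B + 1)) :=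
          Nat.mul_le_mul_left _ (Nat.pow_le_pow_right (by norm_num) hnum)
      _ = X * (2 ^ (p.q / (p.c ^ 4 * p.B))) ^ (p.c ^ 12 * p.B + 1) := by rw [pow_mul]
      _ ≤ p.C.choose (p.c ^ 12 * p.B + 1) * (Psi p H v0).card ^ p.C := by
          rw [hX]
          convert hp
      _ ≤ _ := Nat.mul_le_mul_right _ hch

end Pool.Agent.helper24.TG
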